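import Pool.Agent.TH346.CG.Defs2
import Pool.Agent.H367R3.GSForest
import Pool.Agent.TH71.JH.Trees

/-!
GSD-CUBE2 (job 5508, helper283): the cube is bipartite, forests are induced in cubes.
-/

set_option autoImplicit false

open Finset
open scoped Pointwise

namespace Pool.Agent.TH283.CG

open Pool.Agent.TH346.CG

theorem cube_colorable (M : ℕ) : (cube M).Colorable 2 := by
  refine ⟨SimpleGraph.Coloring.mk
    (fun S => (⟨S.card % 2, Nat.mod_lt _ (by norm_num)⟩ : Fin 2)) ?_⟩
  intro S T hST h
  have h0 : (symmDiff S T).card = 1 := hST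
  have h1 : S.card % 2 = T.card % 2 := congrArg Fin.val h
  have h2 : (symmDiff S T).card = (S \ T).card + (T \ S).card := by
    rw [symmDiff_def, Finset.sup_eq_union, Finset.card_union_of_disjoint]
    exact disjoint_sdiff_sdiff
  have h3 := Finset.card_sdiff_add_card_inter S T
  have h4 := Finset.card_sdiff_add_card_inter T S
  rw [Finset.inter_comm] at h4
  omega

theorem forest_cube {m : ℕ} (F : SimpleGraph (Fin m)) (hF : F.IsAcyclic) :
    ∃ M : ℕ, Nonempty (F ↪g cube M) := by
  obtain ⟨T, hT, ⟨e⟩⟩ := Pool.Agent.H367R3.forest_in_tree F hF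
  obtain ⟨f, hf1, hf2⟩ := Pool.Agent.TH71.JH.tree_family 1 m (Fin (m + 1)) T hT
    (Fintype.card_fin _) (Fin m) (by simp)
  refine ⟨m, ?_⟩
  have hinj : Function.Injective f := by
    intro v w hvw
    by_contra hne
    have h0 : (symmDiff (f v) (f w)).card = 0 := by rw [hvw]; simp
    by_cases h : T.Adj v w
    · have := hf1 v w h
      omega
    · obtain ⟨r, hr, -, hr2⟩ := hf2 v w hne h
      omega
  have hiff : ∀ v w, (cube m).Adj (f v) (f w) ↔ T.Adj v w := by
    intro v w
    constructor
    · intro h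
      have h1 : (symmDiff (f v) (f w)).card = 1 := h
      by_contra hn
      have hne : v ≠ w := by
        rintro rfl
        simp at h1
      obtain ⟨r, hr, -, hr2⟩ := hf2 v w hne hn
      omega
    · intro h
      exact hf1 v w h
  exact ⟨e.trans ⟨⟨f, hinj⟩, fun {v w} => hiff v w⟩⟩

end Pool.Agent.TH283.CG

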